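import Pool.Agent.Y506.FF.Stm

/-!
# The thickening inequality
-/

set_option autoImplicit false

namespace Pool.Agent.Y487.FF

open MeasureTheory Set Filter Topology
open scoped ENNReal InnerProductSpace
open Pool.Agent.W695.KH (Eu)
open Pool.Agent.Y506.FF

section

variable {ι : Type} [Fintype ι] {n d : ℕ}

theorem expand (M : Eu (Fin d) →ₗᵢ[ℝ] Eu ι) (z : Eu (Fin d)) :
    M z = ∑ j, z j • M (EuclideanSpace.single j 1) := by
  have h : z = ∑ j, z j • (EuclideanSpace.single j (1 : ℝ) : Eu (Fin d)) := by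
    ext k
    simp [Pi.single_apply]
  conv_lhs => rw [h]
  rw [map_sum]
  simp only [map_smul]

theorem inner_self_coord (M : Eu (Fin d) →ₗᵢ[ℝ] Eu ι) (z : Eu (Fin d)) (j : Fin d) :
    ⟪M (EuclideanSpace.single j 1), M z⟫_ℝ = z j := by
  rw [LinearIsometry.inner_map_map, EuclideanSpace.inner_single_left]
  simp

theorem prj_add {L : Eu (Fin n) →ₗᵢ[ℝ] Eu ι} {M : Eu (Fin d) →ₗᵢ[ℝ] Eu ι} (hP : Pair L M)
    (x : Eu (Fin n)) (z : Eu (Fin d)) : prj M (L x + M z) = M z := by
  unfold prj
  rw [expand M z]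
  apply Finset.sum_congr rfl
  intro j _
  rw [← expand M z, inner_add_right, real_inner_comm, hP.orth, inner_self_coord, zero_add]

theorem coord_sq (M : Eu (Fin d) →ₗᵢ[ℝ] Eu ι) (z : Eu (Fin d)) (i : ι) :
    (M z i) ^ 2 ≤ ‖z‖ ^ 2 * pw M i := by
  have h : M z i = ∑ j, z j * mat M i j := by
    rw [expand M z]
    simp [mat, WithLp.ofLp_sum, Finset.sum_apply]
  rw [h, EuclideanSpace.norm_sq_eq]
  unfold pw
  have := Finset.sum_mul_sq_le_sq_mul_sq Finset.univ (fun j => z j) (fun j => mat M i j)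
  simpa using this

theorem coord_abs (M : Eu (Fin d) →ₗᵢ[ℝ] Eu ι) (z : Eu (Fin d)) (i : ι) :
    |M z i| ≤ ‖z‖ := by
  have h1 := PiLp.norm_apply_le (M z) i
  rw [M.norm_map] at h1
  simpa using h1

theorem sum_pw (M : Eu (Fin d) →ₗᵢ[ℝ] Eu ι) : ∑ i, pw M i = d := by
  unfold pw
  rw [Finset.sum_comm]
  have h : ∀ j : Fin d, ∑ i, mat M i j ^ 2 = 1 := by
    intro j
    have h1 : ‖M (EuclideanSpace.single j 1)‖ ^ 2 = ∑ i, mat M i j ^ 2 := by
      rw [EuclideanSpace.norm_sq_eq]
      apply Finset.sum_congr rfl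
      intro i _
      rw [Real.norm_eq_abs, sq_abs]
      rfl
    rw [← h1, M.norm_map, PiLp.norm_single]
    norm_num
  simp [h]

theorem pw_nonneg (M : Eu (Fin d) →ₗᵢ[ℝ] Eu ι) (i : ι) : 0 ≤ pw M i :=
  Finset.sum_nonneg fun _ _ => sq_nonneg _

/-- The elementary inequality. -/
theorem key {L : Eu (Fin n) →ₗᵢ[ℝ] Eu ι} {M : Eu (Fin d) →ₗᵢ[ℝ] Eu ι} (hP : Pair L M)
    (hL : ∀ x, ∑ i, L x i = 0) (x : Eu (Fin n)) (z : Eu (Fin d)) (hx : ∀ i, 0 < 1 + L x i)
    (hz : ‖z‖ < 1 / 2) (s : ι → ℝ) (hs : ∀ i, s i = (1 + L x i) / (1 - M z i)) :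
    (∀ i, 0 < s i) ∧ (∀ i, (s i - (1 + L x i)) ^ 2 ≤ 1 / 4 * (pw M i * s i ^ 2)) ∧
    (∀ i, 0 < (1 - M z i)⁻¹) ∧
    (2 / 3 : ℝ) ^ d * Real.exp (-(Fintype.card ι : ℝ)) * Real.exp (-Yw L M x) ≤
      ((∏ i, (1 - M z i)⁻¹) * ∏ i, s i ^ (pw M i)) * Real.exp (-∑ i, s i) := by
  have habs : ∀ i, |M z i| < 1 / 2 := fun i => lt_of_le_of_lt (coord_abs M z i) hz
  have hlo : ∀ i, 1 / 2 < 1 - M z i := fun i => by linarith [(abs_lt.1 (habs i)).2]
  have hhi : ∀ i, 1 - M z i < 3 / 2 := fun i => by linarith [(abs_lt.1 (habs i)).1]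
  have hpos : ∀ i, 0 < 1 - M z i := fun i => by linarith [hlo i]
  have hspos : ∀ i, 0 < s i := fun i => by rw [hs]; exact div_pos (hx i) (hpos i)
  have hrel : ∀ i, s i = (1 + L x i) + M z i * s i := by
    intro i
    rw [hs]
    have := (hpos i).ne'
    field_simp
    ring
  have hsq : ∀ i, (M z i) ^ 2 ≤ 1 / 4 * pw M i := by
    intro i
    refine (coord_sq M z i).trans ?_
    have h1 : ‖z‖ ^ 2 ≤ 1 / 4 := by nlinarith [norm_nonneg z]
    exact mul_le_mul_of_nonneg_right h1 (pw_nonneg M i)
  have hs2 : ∀ i, s i ≤ 2 * (1 + L x i) := by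
    intro i
    rw [hs, div_le_iff₀ (hpos i)]
    nlinarith [hx i, hlo i]
  have hs3 : ∀ i, 2 / 3 * (1 + L x i) ≤ s i := by
    intro i
    rw [hs, le_div_iff₀ (hpos i)]
    nlinarith [hx i, hhi i]
  refine ⟨hspos, ?_, fun i => inv_pos.2 (hpos i), ?_⟩
  · intro i
    have h1 : s i - (1 + L x i) = M z i * s i := by linarith [hrel i]
    rw [h1, mul_pow, ← mul_assoc]
    exact mul_le_mul_of_nonneg_right (hsq i) (sq_nonneg _)
  · -- the sum
    have hsum : ∑ i, s i = Fintype.card ι + ∑ i, M z i + ∑ i, (M z i) ^ 2 * s i := by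
      have h1 : ∀ i, s i = 1 + L x i + M z i + M z i * L x i + (M z i) ^ 2 * s i := by
        intro i
        have := hrel i
        linear_combination (1 + M z i) * this
      have h2 : ∑ i, M z i * L x i = 0 := by
        have := hP.orth x z
        rw [PiLp.inner_apply] at this
        rw [← this]
        apply Finset.sum_congr rfl
        intro i _
        simp
      calc ∑ i, s i = ∑ i, (1 + L x i + M z i + M z i * L x i + (M z i) ^ 2 * s i) :=
            Finset.sum_congr rfl fun i _ => h1 i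
        _ = _ := by
            rw [Finset.sum_add_distrib, Finset.sum_add_distrib, Finset.sum_add_distrib,
              Finset.sum_add_distrib, hL, h2]
            simp
    -- part A
    have hA : Real.exp (-(Fintype.card ι : ℝ)) *
        Real.exp (-∑ i, pw M i * ((1 + L x i) / 2)) ≤
        (∏ i, (1 - M z i)⁻¹) * Real.exp (-∑ i, s i) := by
      have h1 : Real.exp (∑ i, M z i) ≤ ∏ i, (1 - M z i)⁻¹ := by
        rw [Real.exp_sum]
        apply Finset.prod_le_prod
        · intro i _
          exact (Real.exp_pos _).le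
        · intro i _
          rw [← one_div, le_div_iff₀ (hpos i)]
          have h2 := Real.add_one_le_exp (-(M z i))
          calc Real.exp (M z i) * (1 - M z i) ≤ Real.exp (M z i) * Real.exp (-(M z i)) := by
                apply mul_le_mul_of_nonneg_left _ (Real.exp_pos _).le
                linarith
            _ = 1 := by rw [← Real.exp_add]; simp
      have h3 : ∑ i, (M z i) ^ 2 * s i ≤ ∑ i, pw M i * ((1 + L x i) / 2) := by
        apply Finset.sum_le_sum
        intro i _
        calc (M z i) ^ 2 * s i ≤ (1 / 4 * pw M i) * (2 * (1 + L x i)) := by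
              apply mul_le_mul (hsq i) (hs2 i) (hspos i).le
              have := pw_nonneg M i
              positivity
          _ = _ := by ring
      calc Real.exp (-(Fintype.card ι : ℝ)) * Real.exp (-∑ i, pw M i * ((1 + L x i) / 2))
          = Real.exp (∑ i, M z i) * Real.exp (-(Fintype.card ι + ∑ i, M z i +
              ∑ i, pw M i * ((1 + L x i) / 2))) := by
            rw [← Real.exp_add, ← Real.exp_add]
            congr 1
            ring
        _ ≤ Real.exp (∑ i, M z i) * Real.exp (-∑ i, s i) := by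
            apply mul_le_mul_of_nonneg_left _ (Real.exp_pos _).le
            apply Real.exp_le_exp.2
            rw [hsum]
            linarith
        _ ≤ _ := mul_le_mul_of_nonneg_right h1 (Real.exp_pos _).le
    -- part B
    have hB : (2 / 3 : ℝ) ^ d *
        Real.exp (-∑ i, pw M i * max 0 (-Real.log (1 + L x i))) ≤ ∏ i, s i ^ (pw M i) := by
      have h1 : (2 / 3 : ℝ) ^ d = ∏ i, (2 / 3 : ℝ) ^ (pw M i) := by
        rw [← Real.rpow_sum_of_pos (by norm_num), sum_pw, Real.rpow_natCast]
      rw [h1, ← Finset.sum_neg_distrib, Real.exp_sum, ← Finset.prod_mul_distrib]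
      apply Finset.prod_le_prod
      · intro i _
        positivity
      · intro i _
        calc (2 / 3 : ℝ) ^ (pw M i) * Real.exp (-(pw M i * max 0 (-Real.log (1 + L x i))))
            ≤ (2 / 3 : ℝ) ^ (pw M i) * (1 + L x i) ^ (pw M i) := by
              apply mul_le_mul_of_nonneg_left _ (by positivity)
              rw [Real.rpow_def_of_pos (hx i)]
              apply Real.exp_le_exp.2
              have h2 := le_max_right 0 (-Real.log (1 + L x i))
              nlinarith [pw_nonneg M i]
          _ = (2 / 3 * (1 + L x i)) ^ (pw M i) := by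
              rw [Real.mul_rpow (by norm_num) (hx i).le]
          _ ≤ s i ^ (pw M i) := by
              apply Real.rpow_le_rpow _ (hs3 i) (pw_nonneg M i)
              have := hx i
              positivity
    have hY : Yw L M x = ∑ i, pw M i * ((1 + L x i) / 2) +
        ∑ i, pw M i * max 0 (-Real.log (1 + L x i)) := by
      unfold Yw
      rw [← Finset.sum_add_distrib]
      apply Finset.sum_congr rfl
      intro i _
      ring
    calc (2 / 3 : ℝ) ^ d * Real.exp (-(Fintype.card ι : ℝ)) * Real.exp (-Yw L M x)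
        = (Real.exp (-(Fintype.card ι : ℝ)) * Real.exp (-∑ i, pw M i * ((1 + L x i) / 2))) *
          ((2 / 3 : ℝ) ^ d * Real.exp (-∑ i, pw M i * max 0 (-Real.log (1 + L x i)))) := by
          rw [hY, neg_add, Real.exp_add]
          ring
      _ ≤ ((∏ i, (1 - M z i)⁻¹) * Real.exp (-∑ i, s i)) * ∏ i, s i ^ (pw M i) := by
          apply mul_le_mul hA hB
          · positivity
          · apply mul_nonneg _ (Real.exp_pos _).le
            exact Finset.prod_nonneg fun i _ => (inv_pos.2 (hpos i)).le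
      _ = _ := by ring

theorem rho_pos (s : Eu ι) (hs : ∀ i, 0 < s i) : rho s = ENNReal.ofReal (Real.exp (-∑ i, s i)) := by
  unfold rho e0
  rw [← Finset.sum_neg_distrib, Real.exp_sum, ENNReal.ofReal_prod_of_nonneg
    (fun i _ => (Real.exp_pos _).le)]
  apply Finset.prod_congr rfl
  intro i _
  rw [if_pos (hs i).le]

/-- coordinates -/
noncomputable def co (M : Eu (Fin d) →ₗᵢ[ℝ] Eu ι) (w : Eu ι) : Eu (Fin d) :=
  WithLp.toLp 2 fun j => ⟪M (EuclideanSpace.single j 1), w⟫_ℝ

theorem co_meas (M : Eu (Fin d) →ₗᵢ[ℝ] Eu ι) : Measurable (co M) := by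
  have h : Continuous (co M) := by
    unfold co
    fun_prop
  exact h.measurable

end

theorem th (h1 : S_DET) (h2 : S_JAC) (h3 : S_DEC) : S_TH := by
  classical
  intro d
  refine ⟨(2 / 3 : ℝ) ^ d * (volume (Metric.ball (0 : Eu (Fin d)) (1 / 2))).toReal, ?_, ?_⟩
  · apply mul_pos (by positivity)
    exact ENNReal.toReal_pos (Metric.measure_ball_pos _ _ (by norm_num)).ne' measure_ball_lt_top.ne
  intro ι _ n L M hP hL B hBm hB S hSm hS
  obtain ⟨hex, hint⟩ := h3 ι n d L M hP
  have coL : ∀ x z, co L (L x + M z) = x := by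
    intro x z
    unfold co
    ext j
    simp only
    rw [inner_add_right, inner_self_coord, hP.orth, add_zero]
  have coM : ∀ x z, co M (L x + M z) = z := by
    intro x z
    unfold co
    ext j
    simp only
    rw [inner_add_right, inner_self_coord, real_inner_comm, hP.orth, zero_add]
  obtain ⟨W, hW⟩ : ∃ W : Set (Eu ι), W = co L ⁻¹' B ∩ co M ⁻¹' Metric.ball 0 (1 / 2) := ⟨_, rfl⟩
  have hWm : MeasurableSet W := by
    rw [hW]
    exact (co_meas L hBm).inter (co_meas M measurableSet_ball)
  have hWi : ∀ x z, L x + M z ∈ W ↔ x ∈ B ∧ ‖z‖ < 1 / 2 := by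
    intro x z
    rw [hW, Set.mem_inter_iff, Set.mem_preimage, Set.mem_preimage, coL, coM, mem_ball_zero_iff]
  have hPhi : ∀ x z i, Phi M (L x + M z) i = (1 + L x i) / (1 - M z i) := by
    intro x z i
    unfold Phi
    simp only [prj_add hP]
    simp
  have hWd : W ⊆ Wd M := by
    intro w hw
    obtain ⟨x, z, rfl⟩ := hex w
    rw [hWi] at hw
    refine ⟨?_, ?_⟩
    · intro i
      rw [prj_add hP]
      have := hB x hw.1 i
      simpa using this
    · rw [prj_add hP, M.norm_map]
      exact hw.2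
  have hPS : Phi M '' W ⊆ S := by
    rintro s ⟨w, hw, rfl⟩
    obtain ⟨x, z, rfl⟩ := hex w
    rw [hWi] at hw
    obtain ⟨k1, k2, -, -⟩ := key hP hL x z (hB x hw.1) hw.2 (Phi M (L x + M z)).ofLp
      (hPhi x z)
    apply hS _ k1
    refine ⟨x, hw.1, ?_⟩
    rw [EuclideanSpace.norm_sq_eq, Finset.mul_sum]
    apply Finset.sum_le_sum
    intro i _
    rw [Real.norm_eq_abs, sq_abs]
    have := k2 i
    simpa [one] using this
  have hJ := h2 ι d M W hWm hWd rho
  obtain ⟨F0, hF0⟩ : ∃ F0 : Eu ι → ℝ≥0∞, F0 = fun w =>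
      ENNReal.ofReal ((2 / 3 : ℝ) ^ d * Real.exp (-(Fintype.card ι : ℝ))) *
        ENNReal.ofReal (Real.exp (-Yw L M (co L w))) := ⟨_, rfl⟩
  have hYm : Measurable (Yw L M) := by
    unfold Yw
    apply Finset.measurable_sum
    intro i _
    have hc : Measurable fun x : Eu (Fin n) => L x i := by
      have : Continuous fun x : Eu (Fin n) => L x i :=
        (EuclideanSpace.proj i : EuclideanSpace ℝ ι →L[ℝ] ℝ).continuous.comp L.continuous
      exact this.measurable
    apply Measurable.const_mul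
    apply Measurable.add
    · exact (hc.const_add 1).div_const 2
    · exact measurable_const.max (Real.measurable_log.comp (hc.const_add 1)).neg
  have hYm2 : Measurable fun x => ENNReal.ofReal (Real.exp (-Yw L M x)) :=
    (Real.measurable_exp.comp hYm.neg).ennreal_ofReal
  have hF0m : Measurable F0 := by
    rw [hF0]
    exact (hYm2.comp (co_meas L)).const_mul _
  have hge : ∫⁻ w in W, F0 w ≤ ∫⁻ s in S, rho s := by
    refine le_trans ?_ (lintegral_mono_set hPS)
    rw [← hJ]
    apply setLIntegral_mono' hWm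
    intro w hw
    obtain ⟨x, z, rfl⟩ := hex w
    rw [hWi] at hw
    obtain ⟨k1, k2, k3, k4⟩ := key hP hL x z (hB x hw.1) hw.2 (Phi M (L x + M z)).ofLp
      (hPhi x z)
    have hA : (mat M).transpose * mat M = 1 := by
      ext j k
      rw [Matrix.mul_apply]
      have : ⟪M (EuclideanSpace.single j 1), M (EuclideanSpace.single k 1)⟫_ℝ =
          ∑ i, (mat M).transpose j i * mat M i k := by
        rw [PiLp.inner_apply]
        apply Finset.sum_congr rfl
        intro i _
        simp [mat, Matrix.transpose_apply, mul_comm]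
      rw [← this, inner_self_coord]
      simp [Matrix.one_apply, PiLp.single_apply]
    have hdet := h1 ι d (mat M) hA (Phi M (L x + M z)).ofLp k1
    have hdet' : ∏ i, (Phi M (L x + M z)).ofLp i ^ (pw M i) ≤ ((mat M).transpose *
        Matrix.diagonal (Phi M (L x + M z)).ofLp * mat M).det := hdet
    have hprod : 0 < ∏ i, (1 - M z i)⁻¹ := Finset.prod_pos fun i _ => k3 i
    have hprod2 : 0 < ∏ i, (Phi M (L x + M z)).ofLp i ^ (pw M i) :=
      Finset.prod_pos fun i _ => Real.rpow_pos_of_pos (k1 i) _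
    rw [rho_pos _ k1, hF0]
    simp only [coL, prj_add hP]
    rw [← ENNReal.ofReal_mul (by positivity), ← ENNReal.ofReal_mul (abs_nonneg _)]
    apply ENNReal.ofReal_le_ofReal
    refine k4.trans ?_
    apply mul_le_mul_of_nonneg_right _ (Real.exp_pos _).le
    rw [abs_of_pos (mul_pos hprod (lt_of_lt_of_le hprod2 hdet'))]
    exact mul_le_mul_of_nonneg_left hdet' hprod.le
  refine le_trans (le_of_eq ?_) hge
  rw [← lintegral_indicator hWm, hint _ (hF0m.indicator hWm)]
  have e1 : ∀ z : Eu (Fin d), ∫⁻ x, W.indicator F0 (L x + M z) =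
      (Metric.ball (0 : Eu (Fin d)) (1 / 2)).indicator (fun _ =>
        ENNReal.ofReal ((2 / 3 : ℝ) ^ d * Real.exp (-(Fintype.card ι : ℝ))) *
          ∫⁻ x in B, ENNReal.ofReal (Real.exp (-Yw L M x))) z := by
    intro z
    by_cases hz : z ∈ Metric.ball (0 : Eu (Fin d)) (1 / 2)
    · rw [Set.indicator_of_mem hz, ← lintegral_const_mul _ hYm2, ← lintegral_indicator hBm]
      apply lintegral_congr
      intro x
      by_cases hx : x ∈ B
      · rw [Set.indicator_of_mem hx, Set.indicator_of_mem ((hWi x z).2 ⟨hx, by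
          simpa using hz⟩), hF0]
        simp only [coL]
      · rw [Set.indicator_of_notMem hx, Set.indicator_of_notMem]
        intro h
        exact hx ((hWi x z).1 h).1
    · rw [Set.indicator_of_notMem hz]
      apply lintegral_eq_zero_of_ae_eq_zero
      apply ae_of_all
      intro x
      show W.indicator F0 (L x + M z) = 0
      apply Set.indicator_of_notMem
      intro h
      exact hz (by simpa using ((hWi x z).1 h).2)
  rw [lintegral_congr e1, lintegral_indicator measurableSet_ball, setLIntegral_const]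
  have e2 : ENNReal.ofReal ((2 / 3 : ℝ) ^ d * (volume (Metric.ball (0 : Eu (Fin d))
      (1 / 2))).toReal * Real.exp (-(Fintype.card ι : ℝ))) =
      ENNReal.ofReal ((2 / 3 : ℝ) ^ d * Real.exp (-(Fintype.card ι : ℝ))) *
      volume (Metric.ball (0 : Eu (Fin d)) (1 / 2)) := by
    rw [mul_right_comm, ENNReal.ofReal_mul (by positivity),
      ENNReal.ofReal_toReal measure_ball_lt_top.ne]
  rw [e2]
  ring

end Pool.Agent.Y487.FF
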